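import Pool.Agent.Work.MP_2738db_nt.Pairs

set_option autoImplicit false

/-!
Power residue certificates for almost all pairs of bases: outside a set of residue class pairs of
relative size at most `ε`, for coprime `a, b` and all `m, n ≥ 1`, neither `a ^ m + b ^ n` nor
`|a ^ m - b ^ n|` is `s * z ^ ℓ` with a prime `ℓ ≤ K` and `s ≥ 1` without prime factors `> K`.
-/

namespace Pool.Agent.Results.MP_2738db_nt.AlmostAllPairs

open Pool.Agent.Work.MP_2738db_nt

theorem result (K : ℕ) (ε : ℝ) (hε : 0 < ε) :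
    ∃ (M : ℕ) (R : Finset (ZMod M × ZMod M)),
      0 < M ∧ (1 - ε) * (M : ℝ) ^ 2 ≤ (R.card : ℝ) ∧
      ∀ a b m n : ℕ, 0 < m → 0 < n → Nat.Coprime a b → ((a : ZMod M), (b : ZMod M)) ∈ R →
        ∀ ℓ s z : ℕ, ℓ.Prime → ℓ ≤ K → 0 < s → (∀ p : ℕ, p.Prime → p ∣ s → p ≤ K) →
          a ^ m + b ^ n ≠ s * z ^ ℓ ∧ a ^ m ≠ b ^ n + s * z ^ ℓ ∧ b ^ n ≠ a ^ m + s * z ^ ℓ := by
  classical
  obtain ⟨y0, hy0⟩ := aa_genPair K ε hε
  obtain ⟨R, hR, hR'⟩ := hy0 y0 le_rfl
  let f : ZMod (primorial y0) × ZMod (primorial y0) → (Fin 2 → ZMod (primorial y0)) :=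
    fun p => ![p.1, p.2]
  refine ⟨primorial y0, Finset.univ.filter (fun p => f p ∈ R), primorial_pos y0, ?_, ?_⟩
  · have h1 : (Finset.univ.filter (fun p => f p ∈ R)).card = R.card := by
      apply Finset.card_bij (fun p _ => f p)
      · intro p hp
        exact (Finset.mem_filter.mp hp).2
      · intro p _ p' _ h
        have h0 := congrFun h 0
        have h1 := congrFun h 1
        simp only [f, Matrix.cons_val_zero, Matrix.cons_val_one] at h0 h1
        exact Prod.ext h0 h1
      · intro v hv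
        have hfv : f (v 0, v 1) = v := by
          funext i
          fin_cases i <;> simp [f]
        refine ⟨(v 0, v 1), ?_, hfv⟩
        rw [Finset.mem_filter]
        exact ⟨Finset.mem_univ _, by rw [hfv]; exact hv⟩
    rw [h1]
    exact hR
  · intro a b m n hm hn hab hmem ℓ s z hℓ hℓK hs0 hs
    rw [Finset.mem_filter] at hmem
    have hgen : GenPair K a b := by
      have h1 := hR' ![a, b] (by
        have h2 : (fun i => ((![a, b] : Fin 2 → ℕ) i : ZMod (primorial y0))) =
            f ((a : ZMod (primorial y0)), (b : ZMod (primorial y0))) := by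
          funext i
          fin_cases i <;> simp [f]
        rw [h2]
        exact hmem.2)
      simpa using h1
    exact genPair_contra hab hgen hℓ hℓK hm hn hs0.ne' hs

end Pool.Agent.Results.MP_2738db_nt.AlmostAllPairs
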